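import Mathlib

set_option autoImplicit false

namespace Pool.Agent.P.MP_8e531e_co

open Finset

/-- First moment count: some two-colouring of the lines leaves no independent set of size `K`. -/
theorem exists_colouring {P Q I : Type} [Fintype P] [Fintype Q] [Fintype I]
    (π : I → P → Q) (K : ℕ) (hK : K ≤ Fintype.card P)
    (h : (Fintype.card P).choose K * 2 ^ (Fintype.card I * Fintype.card Q)
      < 2 ^ (Fintype.card I * K)) :
    ∃ c : I → P → Bool, ∀ S : Finset P, S.card = K →
      ∃ i, ∃ p ∈ S, ∃ q ∈ S, π i p = π i q ∧ c i p ≠ c i q := by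
  classical
  by_contra hcon
  push Not at hcon
  let Bad : Finset P → Finset (I → P → Bool) := fun S =>
    univ.filter (fun c => ∀ i, ∀ p ∈ S, ∀ q ∈ S, π i p = π i q → c i p = c i q)
  have hcover : (univ : Finset (I → P → Bool)) ⊆ (powersetCard K univ).biUnion Bad := by
    intro c _
    obtain ⟨S, hS, hc⟩ := hcon c
    simp only [mem_biUnion, mem_powersetCard, Bad, mem_filter, mem_univ, true_and]
    exact ⟨S, ⟨subset_univ _, hS⟩, hc⟩
  have hbad : ∀ S ∈ powersetCard K (univ : Finset P), (Bad S).card ≤
      2 ^ (Fintype.card I * Fintype.card Q) * 2 ^ (Fintype.card I * (Fintype.card P - K)) := by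
    intro S hS
    have hSK : S.card = K := (mem_powersetCard.1 hS).2
    let enc : (I → P → Bool) → (I → Q → Bool) × (I → {p // p ∉ S} → Bool) := fun c =>
      (fun i f => decide (∃ p ∈ S, π i p = f ∧ c i p = true), fun i p => c i p.1)
    have hinj : Set.InjOn enc (Bad S) := by
      intro c hc d hd hcd
      simp only [Bad, coe_filter, mem_univ, true_and, Set.mem_ofPred_eq] at hc hd
      funext i p
      by_cases hp : p ∈ S
      · have h1 := congrFun (congrFun (congrArg Prod.fst hcd) i) (π i p)
        simp only [enc, decide_eq_decide] at h1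
        have hc' : (∃ q ∈ S, π i q = π i p ∧ c i q = true) ↔ c i p = true := by
          constructor
          · rintro ⟨q, hq, h2, h3⟩
            rw [← hc i q hq p hp h2]; exact h3
          · intro h3; exact ⟨p, hp, rfl, h3⟩
        have hd' : (∃ q ∈ S, π i q = π i p ∧ d i q = true) ↔ d i p = true := by
          constructor
          · rintro ⟨q, hq, h2, h3⟩
            rw [← hd i q hq p hp h2]; exact h3
          · intro h3; exact ⟨p, hp, rfl, h3⟩
        rw [hc', hd'] at h1
        exact Bool.eq_iff_iff.2 h1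
      · exact congrFun (congrFun (congrArg Prod.snd hcd) i) ⟨p, hp⟩
    have h1 := card_le_card_of_injOn enc (t := univ) (fun _ _ => mem_coe.2 (mem_univ _)) hinj
    have h2 : Fintype.card {p // p ∉ S} = Fintype.card P - K := by
      rw [Fintype.card_subtype_compl, ← hSK]; simp
    rw [card_univ, Fintype.card_prod, Fintype.card_fun, Fintype.card_fun, Fintype.card_fun,
      Fintype.card_fun, h2, Fintype.card_bool, ← pow_mul, ← pow_mul] at h1
    rw [mul_comm (Fintype.card I), mul_comm (Fintype.card I)]
    exact h1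
  have h3 := (card_le_card hcover).trans (card_biUnion_le_card_mul _ _ _ hbad)
  rw [card_univ, Fintype.card_fun, Fintype.card_fun, Fintype.card_bool, ← pow_mul,
    card_powersetCard, card_univ] at h3
  have h4 : Fintype.card P * Fintype.card I
      = Fintype.card I * K + Fintype.card I * (Fintype.card P - K) := by
    rw [← mul_add, Nat.add_sub_cancel' hK, mul_comm]
  rw [h4, pow_add, ← mul_assoc] at h3
  have h5 := Nat.le_of_mul_le_mul_right h3 (by positivity)
  omega

/-- `C(mM, K) ≤ 3 ^ M * m ^ K`. -/
theorem choose_le (m M K : ℕ) (hm : 0 < m) (hK : K ≤ m * M) :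
    (m * M).choose K ≤ 3 ^ M * m ^ K := by
  have h1 : (m + 1) ^ m ≤ 3 * m ^ m := by
    have hm' : (0 : ℝ) < m := by exact_mod_cast hm
    have h2 : ((m : ℝ) + 1) ≤ m * Real.exp (1 / m) := by
      have := Real.add_one_le_exp (1 / (m : ℝ))
      have h3 : (m : ℝ) + 1 = m * (1 / m + 1) := by field_simp; ring
      rw [h3]; exact mul_le_mul_of_nonneg_left this hm'.le
    have h4 : ((m : ℝ) + 1) ^ m ≤ (m * Real.exp (1 / m)) ^ m :=
      pow_le_pow_left₀ (by positivity) h2 m
    rw [mul_pow, ← Real.exp_nat_mul, mul_one_div_cancel hm'.ne'] at h4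
    have h5 : (m : ℝ) ^ m * Real.exp 1 ≤ 3 * (m : ℝ) ^ m := by
      rw [mul_comm]
      exact mul_le_mul_of_nonneg_right Real.exp_one_lt_three.le (by positivity)
    exact_mod_cast h4.trans h5
  have h2 : (m * M).choose K * m ^ (m * M - K) ≤ (m + 1) ^ (m * M) := by
    rw [add_comm m 1, add_pow]
    have := single_le_sum (f := fun k => 1 ^ k * m ^ (m * M - k) * ((m * M).choose k : ℕ))
      (s := range (m * M + 1)) (fun _ _ => Nat.zero_le _) (mem_range.2 (Nat.lt_succ_of_le hK))
    simpa [mul_comm] using this
  have h3 : (m + 1) ^ (m * M) ≤ 3 ^ M * m ^ K * m ^ (m * M - K) := by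
    rw [mul_assoc, ← pow_add, Nat.add_sub_cancel' hK, pow_mul, pow_mul, ← mul_pow]
    exact Nat.pow_le_pow_left h1 M
  exact Nat.le_of_mul_le_mul_right (h2.trans h3) (by positivity)

end Pool.Agent.P.MP_8e531e_co
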