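import Mathlib
import Pool.Agent.P.MP_8e531e_co.Count

set_option autoImplicit false

namespace Pool.Agent.P.MP_8e531e_co

open Finset

section
variable {P Q I : Type} (π : I → P → Q) (c : I → P → Bool) (B : ℕ)

/-- Adjacency: points of opposite colour on a line, a point and a filler of a line through it,
two fillers of the same line. -/
def adjR : P ⊕ (I × Q × Fin B) → P ⊕ (I × Q × Fin B) → Prop
  | .inl p, .inl q => ∃ i, π i p = π i q ∧ c i p ≠ c i q
  | .inl p, .inr x => π x.1 p = x.2.1
  | .inr x, .inl p => π x.1 p = x.2.1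
  | .inr x, .inr y => x.1 = y.1 ∧ x.2.1 = y.2.1 ∧ x.2.2 ≠ y.2.2

/-- The counterexample graph. -/
def gr : SimpleGraph (P ⊕ (I × Q × Fin B)) where
  Adj := adjR π c B
  symm := ⟨by
    rintro (p | x) (q | y) h
    · obtain ⟨i, h1, h2⟩ := h
      exact ⟨i, h1.symm, h2.symm⟩
    · exact h
    · exact h
    · exact ⟨h.1.symm, h.2.1.symm, h.2.2.symm⟩⟩
  loopless := ⟨by
    rintro (p | x) h
    · obtain ⟨i, -, h2⟩ := h
      exact h2 rfl
    · exact h.2.2 rfl⟩

variable {π c B}

theorem no_triangle
    (htri : ∀ i j k p q z, π i p = π i q → π j q = π j z → π k p = π k z →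
      p ≠ q → q ≠ z → p ≠ z → i = j ∧ j = k)
    {p q z : P} (h1 : (gr π c B).Adj (.inl p) (.inl q)) (h2 : (gr π c B).Adj (.inl q) (.inl z))
    (h3 : (gr π c B).Adj (.inl p) (.inl z)) : False := by
  have n1 : p ≠ q := fun h => h1.ne (by rw [h])
  have n2 : q ≠ z := fun h => h2.ne (by rw [h])
  have n3 : p ≠ z := fun h => h3.ne (by rw [h])
  obtain ⟨i, a1, b1⟩ := h1
  obtain ⟨j, a2, b2⟩ := h2
  obtain ⟨k, a3, b3⟩ := h3
  obtain ⟨rfl, rfl⟩ := htri i j k p q z a1 a2 a3 n1 n2 n3
  revert b1 b2 b3
  cases c i p <;> cases c i q <;> cases c i z <;> simp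

theorem toLeft_card_le
    (htri : ∀ i j k p q z, π i p = π i q → π j q = π j z → π k p = π k z →
      p ≠ q → q ≠ z → p ≠ z → i = j ∧ j = k)
    (X : Finset (P ⊕ (I × Q × Fin B))) (hX : (gr π c B).IsClique (X : Set _)) :
    X.toLeft.card ≤ 2 := by
  classical
  by_contra h
  push Not at h
  obtain ⟨p, q, z, hp, hq, hz, n1, n3, n2⟩ := Finset.two_lt_card_iff.1 h
  rw [mem_toLeft] at hp hq hz
  exact no_triangle htri (hX hp hq (by simpa using n1)) (hX hq hz (by simpa using n2))
    (hX hp hz (by simpa using n3))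

theorem toRight_card_le (X : Finset (P ⊕ (I × Q × Fin B)))
    (hX : (gr π c B).IsClique (X : Set _)) : X.toRight.card ≤ B := by
  classical
  have := card_le_card_of_injOn (s := X.toRight) (t := (univ : Finset (Fin B)))
    (fun x => x.2.2) (fun _ _ => mem_coe.2 (mem_univ _)) (by
      intro x hx y hy hxy
      by_contra hne
      rw [mem_coe, mem_toRight] at hx hy
      exact (hX hx hy (by simpa using hne)).2.2 hxy)
  simpa using this

theorem clique_card_le
    (htri : ∀ i j k p q z, π i p = π i q → π j q = π j z → π k p = π k z →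
      p ≠ q → q ≠ z → p ≠ z → i = j ∧ j = k)
    (X : Finset (P ⊕ (I × Q × Fin B))) (hX : (gr π c B).IsClique (X : Set _)) :
    X.card ≤ B + 2 := by
  have h1 := toLeft_card_le htri X hX
  have h2 := toRight_card_le X hX
  have h3 := card_toLeft_add_card_toRight (u := X)
  omega

theorem clique_on_line [Nonempty I] [Nonempty Q]
    (htri : ∀ i j k p q z, π i p = π i q → π j q = π j z → π k p = π k z →
      p ≠ q → q ≠ z → p ≠ z → i = j ∧ j = k)
    (X : Finset (P ⊕ (I × Q × Fin B))) (hX : (gr π c B).IsClique (X : Set _)) :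
    ∃ i f, (∀ p, Sum.inl p ∈ X → π i p = f) ∧
      (∀ y : I × Q × Fin B, Sum.inr y ∈ X → y.1 = i ∧ y.2.1 = f) := by
  classical
  by_cases h : ∃ x, Sum.inr x ∈ X
  · obtain ⟨x, hx⟩ := h
    refine ⟨x.1, x.2.1, fun p hp => hX hp hx (by simp), fun y hy => ?_⟩
    by_cases hxy : y = x
    · rw [hxy]; exact ⟨rfl, rfl⟩
    · have := hX hy hx (by simpa using hxy)
      exact ⟨this.1, this.2.1⟩
  · push Not at h
    by_cases h2 : ∃ p q, Sum.inl p ∈ X ∧ Sum.inl q ∈ X ∧ p ≠ q
    · obtain ⟨p, q, hp, hq, hpq⟩ := h2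
      have hadj := hX hp hq (by simpa using hpq)
      obtain ⟨i, h1, h3⟩ := id hadj
      refine ⟨i, π i p, fun z hz => ?_, fun y hy => absurd hy (h y)⟩
      by_cases hzp : z = p
      · rw [hzp]
      by_cases hzq : z = q
      · rw [hzq, h1]
      exact (no_triangle htri hadj (hX hq hz (by simpa using Ne.symm hzq))
        (hX hp hz (by simpa using Ne.symm hzp))).elim
    · push Not at h2
      obtain ⟨i⟩ := ‹Nonempty I›
      by_cases h3 : ∃ p, Sum.inl p ∈ X
      · obtain ⟨p, hp⟩ := h3
        exact ⟨i, π i p, fun z hz => by rw [h2 z p hz hp], fun y hy => absurd hy (h y)⟩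
      · push Not at h3
        obtain ⟨f⟩ := ‹Nonempty Q›
        exact ⟨i, f, fun z hz => absurd hz (h3 z), fun y hy => absurd hy (h y)⟩

theorem maximal_card_ge [Nonempty I] [Nonempty Q]
    (htri : ∀ i j k p q z, π i p = π i q → π j q = π j z → π k p = π k z →
      p ≠ q → q ≠ z → p ≠ z → i = j ∧ j = k)
    (X : Finset (P ⊕ (I × Q × Fin B))) (hX : (gr π c B).IsClique (X : Set _))
    (hmax : ∀ Y : Finset (P ⊕ (I × Q × Fin B)), (gr π c B).IsClique (Y : Set _) → X ⊆ Y → Y = X) :
    B ≤ X.card := by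
  classical
  obtain ⟨i, f, h1, h2⟩ := clique_on_line htri X hX
  have hall : ∀ b : Fin B, Sum.inr (i, f, b) ∈ X := by
    intro b
    have hcl : (gr π c B).IsClique ((insert (Sum.inr (i, f, b)) X : Finset _) : Set _) := by
      rw [coe_insert]
      refine hX.insert ?_
      rintro (p | y) hv hne
      · exact h1 p hv
      · obtain ⟨e1, e2⟩ := h2 y hv
        refine ⟨e1.symm, e2.symm, fun e3 => hne ?_⟩
        obtain ⟨y1, y2, y3⟩ := y
        simp only at e1 e2 e3
        rw [e1, e2, e3]
    rw [← hmax _ hcl (subset_insert _ _)]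
    exact mem_insert_self _ _
  have := card_le_card_of_injOn (s := (univ : Finset (Fin B))) (t := X)
    (fun b => Sum.inr (i, f, b)) (fun b _ => mem_coe.2 (hall b)) (by
      intro x _ y _ hxy
      simpa using hxy)
  simpa using this

variable [Fintype P] [Fintype Q] [Fintype I]

theorem degree_inr_le [DecidableEq Q] (m : ℕ)
    (hfib : ∀ i f, (univ.filter (fun p => π i p = f)).card ≤ m)
    (x : I × Q × Fin B) [Fintype ((gr π c B).neighborSet (.inr x))] :
    (gr π c B).degree (.inr x) ≤ m + B := by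
  classical
  rw [← SimpleGraph.card_neighborFinset_eq_degree, ← card_toLeft_add_card_toRight]
  refine add_le_add ?_ ?_
  · refine le_trans (card_le_card ?_) (hfib x.1 x.2.1)
    intro p hp
    rw [mem_toLeft, SimpleGraph.mem_neighborFinset] at hp
    exact mem_filter.2 ⟨mem_univ _, hp⟩
  · have := card_le_card_of_injOn (s := ((gr π c B).neighborFinset (.inr x)).toRight)
      (t := (univ : Finset (Fin B)))
      (fun x => x.2.2) (fun _ _ => mem_coe.2 (mem_univ _)) (by
        intro y hy z hz hyz
        rw [mem_coe, mem_toRight, SimpleGraph.mem_neighborFinset] at hy hz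
        obtain ⟨y1, y2, y3⟩ := y
        obtain ⟨z1, z2, z3⟩ := z
        have a1 := hy.1.symm.trans hz.1
        have a2 := hy.2.1.symm.trans hz.2.1
        simp only at a1 a2 hyz
        rw [a1, a2, hyz])
    simpa using this

theorem degree_inl_le [DecidableEq Q] (m : ℕ)
    (hfib : ∀ i f, (univ.filter (fun p => π i p = f)).card ≤ m)
    (p : P) [Fintype ((gr π c B).neighborSet (.inl p))] :
    (gr π c B).degree (.inl p) ≤ Fintype.card I * m + Fintype.card I * B := by
  classical
  rw [← SimpleGraph.card_neighborFinset_eq_degree, ← card_toLeft_add_card_toRight]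
  refine add_le_add ?_ ?_
  · have hsub : ((gr π c B).neighborFinset (.inl p)).toLeft ⊆
        (univ : Finset I).biUnion (fun i => univ.filter (fun q => π i q = π i p)) := by
      intro q hq
      rw [mem_toLeft, SimpleGraph.mem_neighborFinset] at hq
      obtain ⟨i, h1, -⟩ := hq
      exact mem_biUnion.2 ⟨i, mem_univ _, mem_filter.2 ⟨mem_univ _, h1.symm⟩⟩
    exact (card_le_card hsub).trans (card_biUnion_le_card_mul _ _ _ (fun i _ => hfib i _))
  · have := card_le_card_of_injOn (s := ((gr π c B).neighborFinset (.inl p)).toRight)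
      (t := (univ : Finset (I × Fin B)))
      (fun x => (x.1, x.2.2)) (fun _ _ => mem_coe.2 (mem_univ _)) (by
        intro y hy z hz hyz
        rw [mem_coe, mem_toRight, SimpleGraph.mem_neighborFinset] at hy hz
        obtain ⟨y1, y2, y3⟩ := y
        obtain ⟨z1, z2, z3⟩ := z
        have a1 : π y1 p = y2 := hy
        have a2 : π z1 p = z2 := hz
        simp only [Prod.mk.injEq] at hyz
        obtain ⟨rfl, rfl⟩ := hyz
        rw [← a1, ← a2])
    simpa using this

end

end Pool.Agent.P.MP_8e531e_co
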