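import Mathlib
import Pool.Agent.P.MP_8e531e_co.Graph

set_option autoImplicit false

namespace Pool.Agent.P.MP_8e531e_co

open Finset

/-- Abstract form: any triangle-free system of lines with suitable parameters is a counterexample. -/
theorem abstract_counter {P Q I : Type} [Fintype P] [Fintype Q] [Fintype I]
    [Nonempty I] [Nonempty Q] [DecidableEq Q] (π : I → P → Q) (c : I → P → Bool) (B m K : ℕ)
    (hB : 0 < B)
    (htri : ∀ i j k p q z, π i p = π i q → π j q = π j z → π k p = π k z →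
      p ≠ q → q ≠ z → p ≠ z → i = j ∧ j = k)
    (hfib : ∀ i f, (univ.filter (fun p => π i p = f)).card ≤ m)
    (hc : ∀ S : Finset P, S.card = K →
      ∃ i, ∃ p ∈ S, ∃ q ∈ S, π i p = π i q ∧ c i p ≠ c i q)
    (hnum : (K : ℝ) * (((m : ℝ) + B + (B + 2) + 1) / 2 +
      ((Fintype.card I : ℝ) * m + Fintype.card I * B + (B + 2) + 1) / B) < Fintype.card P)
    [DecidableEq (P ⊕ (I × Q × Fin B))] [DecidableRel (gr π c B).Adj]
    (w : Finset (P ⊕ (I × Q × Fin B)) → ℝ)
    (hw0 : ∀ s, 0 ≤ w s)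
    (hwi : ∀ s : Finset (P ⊕ (I × Q × Fin B)), ¬ (gr π c B).IsIndepSet (s : Set _) → w s = 0)
    (hw1 : ∀ v, 1 ≤ ∑ s ∈ Finset.univ.filter (fun s : Finset (P ⊕ (I × Q × Fin B)) => v ∈ s), w s)
    (X : Finset (P ⊕ (I × Q × Fin B))) (hX : (gr π c B).IsClique (X : Set _))
    (hmax : ∀ Y : Finset (P ⊕ (I × Q × Fin B)), (gr π c B).IsClique (Y : Set _) → X ⊆ Y → Y = X)
    (hle : ∑ s, w s ≤
      (∑ v ∈ X, (((gr π c B).degree v : ℝ) +
        ((sSup {n : ℕ | ∃ s : Finset (P ⊕ (I × Q × Fin B)), (gr π c B).IsNClique n s ∧ v ∈ s} : ℕ) : ℝ)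
          + 1) / 2) / (X.card : ℝ)) : False := by
  classical
  -- lower bound on the total weight
  have hind : ∀ s : Finset (P ⊕ (I × Q × Fin B)), w s * (s.toLeft.card : ℝ) ≤ w s * K := by
    intro s
    by_cases hs : (gr π c B).IsIndepSet (s : Set _)
    · refine mul_le_mul_of_nonneg_left ?_ (hw0 s)
      have : s.toLeft.card ≤ K := by
        by_contra hlt
        push Not at hlt
        obtain ⟨S, hS, hSK⟩ := exists_subset_card_eq hlt.le
        obtain ⟨i, p, hp, q, hq, h1, h2⟩ := hc S hSK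
        have hp' := mem_toLeft.1 (hS hp)
        have hq' := mem_toLeft.1 (hS hq)
        have hne : p ≠ q := fun h => h2 (by rw [h])
        exact hs hp' hq' (by simpa using hne) ⟨i, h1, h2⟩
      exact_mod_cast this
    · rw [hwi s hs]; simp
  have hlow : (Fintype.card P : ℝ) ≤ (∑ s, w s) * K := by
    have h1 : (Fintype.card P : ℝ) ≤ ∑ p : P, ∑ s ∈ Finset.univ.filter
        (fun s : Finset (P ⊕ (I × Q × Fin B)) => Sum.inl p ∈ s), w s := by
      have := sum_le_sum (s := (univ : Finset P)) (fun p _ => hw1 (Sum.inl p))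
      simpa using this
    have h2 : ∑ p : P, ∑ s ∈ Finset.univ.filter
        (fun s : Finset (P ⊕ (I × Q × Fin B)) => Sum.inl p ∈ s), w s
        = ∑ s : Finset (P ⊕ (I × Q × Fin B)), w s * (s.toLeft.card : ℝ) := by
      simp_rw [sum_filter]
      rw [sum_comm]
      refine sum_congr rfl (fun s _ => ?_)
      rw [← sum_filter, sum_const, nsmul_eq_mul, mul_comm]
      congr 3
      ext p
      simp
    rw [h2] at h1
    rw [sum_mul]
    exact h1.trans (sum_le_sum (fun s _ => hind s))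
  -- upper bound on the clique average
  have hom : ∀ v, (sSup {n : ℕ | ∃ s : Finset (P ⊕ (I × Q × Fin B)),
      (gr π c B).IsNClique n s ∧ v ∈ s} : ℕ) ≤ B + 2 := by
    intro v
    refine csSup_le' ?_
    rintro n ⟨s, hs, -⟩
    rw [← hs.card_eq]
    exact clique_card_le htri s hs.isClique
  set WF : ℝ := ((m : ℝ) + B + (B + 2) + 1) / 2 with hWF
  set WA : ℝ := ((Fintype.card I : ℝ) * m + Fintype.card I * B + (B + 2) + 1) with hWA
  have hWF0 : 0 ≤ WF := by positivity
  have hWA0 : 0 ≤ WA := by positivity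
  have hBX : (B : ℝ) ≤ X.card := by exact_mod_cast maximal_card_ge htri X hX hmax
  have hB' : (0 : ℝ) < B := by exact_mod_cast hB
  have hX0 : (0 : ℝ) < X.card := lt_of_lt_of_le hB' hBX
  have hsum : (∑ v ∈ X, (((gr π c B).degree v : ℝ) +
        ((sSup {n : ℕ | ∃ s : Finset (P ⊕ (I × Q × Fin B)), (gr π c B).IsNClique n s ∧ v ∈ s} : ℕ) : ℝ)
          + 1) / 2) ≤ WA + X.card * WF := by
    rw [sum_sum_eq_sum_toLeft_add_sum_toRight]
    refine add_le_add ?_ ?_
    · refine (sum_le_card_nsmul _ _ (WA / 2) (fun p _ => ?_)).trans ?_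
      · have h1 : (((gr π c B).degree (.inl p) : ℕ) : ℝ)
            ≤ ((Fintype.card I * m + Fintype.card I * B : ℕ) : ℝ) := by
          exact_mod_cast degree_inl_le m hfib p
        have h2 : ((sSup {n : ℕ | ∃ s : Finset (P ⊕ (I × Q × Fin B)),
          (gr π c B).IsNClique n s ∧ Sum.inl p ∈ s} : ℕ) : ℝ) ≤ ((B + 2 : ℕ) : ℝ) := by
          exact_mod_cast hom _
        push_cast at h1 h2
        rw [hWA]; linarith
      · have h1 : (X.toLeft.card : ℝ) ≤ 2 := by exact_mod_cast toLeft_card_le htri X hX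
        rw [nsmul_eq_mul]
        nlinarith
    · refine (sum_le_card_nsmul _ _ WF (fun x _ => ?_)).trans ?_
      · have h1 : (((gr π c B).degree (.inr x) : ℕ) : ℝ) ≤ ((m + B : ℕ) : ℝ) := by
          exact_mod_cast degree_inr_le m hfib x
        have h2 : ((sSup {n : ℕ | ∃ s : Finset (P ⊕ (I × Q × Fin B)),
          (gr π c B).IsNClique n s ∧ Sum.inr x ∈ s} : ℕ) : ℝ) ≤ ((B + 2 : ℕ) : ℝ) := by
          exact_mod_cast hom _
        push_cast at h1 h2
        rw [hWF]; linarith
      · have h1 : (X.toRight.card : ℝ) ≤ X.card := by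
          have := card_toLeft_add_card_toRight (u := X)
          exact_mod_cast (by omega : X.toRight.card ≤ X.card)
        rw [nsmul_eq_mul]
        exact mul_le_mul_of_nonneg_right h1 hWF0
  have hup : ∑ s, w s ≤ WF + WA / B := by
    refine hle.trans ?_
    rw [div_le_iff₀ hX0]
    refine hsum.trans ?_
    have : WA ≤ WA / B * X.card := by
      rw [div_mul_eq_mul_div, le_div_iff₀ hB']
      exact mul_le_mul_of_nonneg_left hBX hWA0
    nlinarith
  have hK0 : (0 : ℝ) ≤ K := Nat.cast_nonneg _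
  have := mul_le_mul_of_nonneg_right hup hK0
  linarith

/-- Axis-parallel lines of a cube contain no triangle. -/
theorem cube_tri {n : ℕ} {α : Type} (i j k : Fin (n + 1)) (p q z : Fin (n + 1) → α)
    (h1 : Fin.removeNth i p = Fin.removeNth i q) (h2 : Fin.removeNth j q = Fin.removeNth j z)
    (h3 : Fin.removeNth k p = Fin.removeNth k z) (n1 : p ≠ q) (n2 : q ≠ z) (n3 : p ≠ z) :
    i = j ∧ j = k := by
  have key : ∀ (i : Fin (n + 1)) (p q : Fin (n + 1) → α),
      Fin.removeNth i p = Fin.removeNth i q → ∀ l, l ≠ i → p l = q l := by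
    intro i p q h l hl
    obtain ⟨t, rfl⟩ := Fin.exists_succAbove_eq hl
    exact congrFun h t
  have key2 : ∀ (i : Fin (n + 1)) (p q : Fin (n + 1) → α),
      Fin.removeNth i p = Fin.removeNth i q → p ≠ q → p i ≠ q i := by
    intro i p q h hne he
    apply hne
    funext l
    by_cases hl : l = i
    · rw [hl]; exact he
    · exact key i p q h l hl
  have a1 := key2 i p q h1 n1
  have a2 := key2 j q z h2 n2
  have a3 := key2 k p z h3 n3
  have hij : i = j := by
    by_contra hij
    have e1 : q i = z i := key j q z h2 i hij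
    have e2 : p j = q j := key i p q h1 j (Ne.symm hij)
    have hik : i = k := by
      by_contra hik
      exact a1 ((key k p z h3 i hik).trans e1.symm)
    have hjk : j = k := by
      by_contra hjk
      exact a2 (e2.symm.trans (key k p z h3 j hjk))
    exact hij (hik.trans hjk.symm)
  refine ⟨hij, ?_⟩
  subst hij
  by_contra hik
  exact a3 ((key i p q h1 k (Ne.symm hik)).trans (key i q z h2 k (Ne.symm hik)))

theorem cube_fib {n m : ℕ} (i : Fin (n + 1)) (f : Fin n → Fin m) :
    (univ.filter (fun p : Fin (n + 1) → Fin m => Fin.removeNth i p = f)).card ≤ m := by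
  have := card_le_card_of_injOn
    (s := univ.filter (fun p : Fin (n + 1) → Fin m => Fin.removeNth i p = f))
    (t := (univ : Finset (Fin m))) (fun p => p i) (fun _ _ => mem_coe.2 (mem_univ _)) (by
      intro p hp q hq hpq
      rw [mem_coe, mem_filter] at hp hq
      rw [← Fin.insertNth_self_removeNth i p, ← Fin.insertNth_self_removeNth i q, hp.2, hq.2]
      have e : p i = q i := hpq
      rw [e])
  simpa using this

/-- The cube construction refutes the bound, for parameters satisfying two numerical conditions. -/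
theorem cube_counter (t h B : ℕ) (hh : 1 < h) (hB : 0 < B)
    (h1 : 9 * (2 * h) ^ 3 < 2 ^ (t + 2))
    (h2 : (3 : ℝ) * ((((2 * h : ℕ) : ℝ) + B + (B + 2) + 1) / 2 +
      (((t + 2 : ℕ) : ℝ) * (2 * h : ℕ) + (t + 2 : ℕ) * B + (B + 2) + 1) / B) < 4 * h) :
    ¬ (∀ (V : Type) [Fintype V] [DecidableEq V] [Nonempty V]
      (G : SimpleGraph V) [DecidableRel G.Adj],
      ∃ w : Finset V → ℝ,
        (∀ s, 0 ≤ w s) ∧
        (∀ s : Finset V, ¬ G.IsIndepSet (s : Set V) → w s = 0) ∧
        (∀ v : V, 1 ≤ ∑ s ∈ Finset.univ.filter (fun s : Finset V => v ∈ s), w s) ∧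
        ∃ X : Finset V, G.IsClique (X : Set V) ∧
          (∀ Y : Finset V, G.IsClique (Y : Set V) → X ⊆ Y → Y = X) ∧
          ∑ s, w s ≤
            (∑ v ∈ X, ((G.degree v : ℝ) +
                ((sSup {n : ℕ | ∃ s : Finset V, G.IsNClique n s ∧ v ∈ s} : ℕ) : ℝ)
                + 1) / 2) / (X.card : ℝ)) := by
  classical
  intro H
  have hm : 0 < 2 * h := by omega
  have : Nonempty (Fin (2 * h)) := ⟨⟨0, hm⟩⟩
  let π : Fin (t + 2) → (Fin (t + 2) → Fin (2 * h)) → (Fin (t + 1) → Fin (2 * h)) :=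
    fun i p => Fin.removeNth i p
  obtain ⟨L, hL⟩ : ∃ L, L = h * (2 * h) ^ t := ⟨_, rfl⟩
  have hL0 : 0 < L := by rw [hL]; positivity
  have hQ : Fintype.card (Fin (t + 1) → Fin (2 * h)) = 2 * L := by
    rw [Fintype.card_fun, Fintype.card_fin, Fintype.card_fin, hL]; ring
  have hP : Fintype.card (Fin (t + 2) → Fin (2 * h)) = (2 * h) * (2 * L) := by
    rw [Fintype.card_fun, Fintype.card_fin, Fintype.card_fin, hL]; ring
  have hKle : 3 * L ≤ (2 * h) * (2 * L) := by nlinarith
  obtain ⟨c, hc⟩ := exists_colouring π (3 * L) (by rw [hP]; exact hKle) (by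
    rw [hP, hQ, Fintype.card_fin]
    have a1 := choose_le (2 * h) (2 * L) (3 * L) hm hKle
    have a2 : 3 ^ (2 * L) * (2 * h) ^ (3 * L) = (9 * (2 * h) ^ 3) ^ L := by
      rw [mul_pow 9, ← pow_mul, pow_mul 3]; norm_num
    have a3 : (9 * (2 * h) ^ 3) ^ L < (2 ^ (t + 2)) ^ L := Nat.pow_lt_pow_left h1 hL0.ne'
    have a4 : 2 ^ ((t + 2) * (3 * L)) = (2 ^ (t + 2)) ^ L * 2 ^ ((t + 2) * (2 * L)) := by
      rw [← pow_mul, ← pow_add]; congr 1; ring
    rw [a4]
    exact Nat.mul_lt_mul_of_lt_of_le (by omega) le_rfl (by positivity))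
  obtain ⟨w, hw0, hwi, hw1, X, hX, hmax, hle⟩ := H _ (gr π c B)
  refine abstract_counter π c B (2 * h) (3 * L) hB
    (fun i j k p q z => cube_tri i j k p q z) (fun i f => by convert cube_fib i f) hc ?_
    w hw0 hwi hw1 X hX hmax hle
  rw [hP, Fintype.card_fin]
  have hL' : (0 : ℝ) < L := by exact_mod_cast hL0
  have := mul_lt_mul_of_pos_right h2 hL'
  push_cast at this ⊢
  nlinarith

end Pool.Agent.P.MP_8e531e_co
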